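import Pool.Agent.Work.MP_71a505_core.CDefs

namespace Pool.Agent.Work.MP_71a505_core

set_option maxRecDepth 100000 in
theorem val12 : coreRange (10 ^ 46) 1000 650 57 = true := by decide +kernel

end Pool.Agent.Work.MP_71a505_core
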