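import Pool.Agent.Work.MP_71a505_core.CCore
import Pool.Agent.Work.MP_71a505_core.Val0
import Pool.Agent.Work.MP_71a505_core.Val1
import Pool.Agent.Work.MP_71a505_core.Val2
import Pool.Agent.Work.MP_71a505_core.Val3
import Pool.Agent.Work.MP_71a505_core.Val4
import Pool.Agent.Work.MP_71a505_core.Val5
import Pool.Agent.Work.MP_71a505_core.Val6
import Pool.Agent.Work.MP_71a505_core.Val7
import Pool.Agent.Work.MP_71a505_core.Val8
import Pool.Agent.Work.MP_71a505_core.Val9
import Pool.Agent.Work.MP_71a505_core.Val10
import Pool.Agent.Work.MP_71a505_core.Val11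
import Pool.Agent.Work.MP_71a505_core.Val12
import Pool.Agent.Work.MP_71a505_core.Val13
import Pool.Agent.Work.MP_71a505_core.Val14
import Pool.Agent.Work.MP_71a505_core.Val15
import Pool.Agent.Work.MP_71a505_core.Val16
import Pool.Agent.Work.MP_71a505_core.Val17

namespace Pool.Agent.Work.MP_71a505_core

/-- the kernel computation -/
theorem coreH_1000 : CoreH (10 ^ 46) 1000 := by
  intro w hw
  rcases Nat.lt_or_ge w 2 with h | h
  · interval_cases w <;> rfl
  rcases Nat.lt_or_ge w 55 with h0 | h0
  · exact coreRange_use val0 w (by omega) (by omega)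
  rcases Nat.lt_or_ge w 110 with h1 | h1
  · exact coreRange_use val1 w (by omega) (by omega)
  rcases Nat.lt_or_ge w 164 with h2 | h2
  · exact coreRange_use val2 w (by omega) (by omega)
  rcases Nat.lt_or_ge w 216 with h3 | h3
  · exact coreRange_use val3 w (by omega) (by omega)
  rcases Nat.lt_or_ge w 270 with h4 | h4
  · exact coreRange_use val4 w (by omega) (by omega)
  rcases Nat.lt_or_ge w 324 with h5 | h5
  · exact coreRange_use val5 w (by omega) (by omega)
  rcases Nat.lt_or_ge w 378 with h6 | h6
  · exact coreRange_use val6 w (by omega) (by omega)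
  rcases Nat.lt_or_ge w 431 with h7 | h7
  · exact coreRange_use val7 w (by omega) (by omega)
  rcases Nat.lt_or_ge w 483 with h8 | h8
  · exact coreRange_use val8 w (by omega) (by omega)
  rcases Nat.lt_or_ge w 538 with h9 | h9
  · exact coreRange_use val9 w (by omega) (by omega)
  rcases Nat.lt_or_ge w 595 with h10 | h10
  · exact coreRange_use val10 w (by omega) (by omega)
  rcases Nat.lt_or_ge w 650 with h11 | h11
  · exact coreRange_use val11 w (by omega) (by omega)
  rcases Nat.lt_or_ge w 707 with h12 | h12
  · exact coreRange_use val12 w (by omega) (by omega)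
  rcases Nat.lt_or_ge w 767 with h13 | h13
  · exact coreRange_use val13 w (by omega) (by omega)
  rcases Nat.lt_or_ge w 824 with h14 | h14
  · exact coreRange_use val14 w (by omega) (by omega)
  rcases Nat.lt_or_ge w 884 with h15 | h15
  · exact coreRange_use val15 w (by omega) (by omega)
  rcases Nat.lt_or_ge w 948 with h16 | h16
  · exact coreRange_use val16 w (by omega) (by omega)
  exact coreRange_use val17 w (by omega) (by omega)

end Pool.Agent.Work.MP_71a505_core
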