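import Pool.Agent.Work.MP_71a505_core.CReal
import Pool.Agent.Work.MP_71a505_core.ValAll
import Pool.Agent.Work.MP_71a505_up.FinalC

/-!
Everything that is known about an exceptional triple before the last step: the doubly irregular
structure with `a d, a g, d g ≥ 10 ^ 6`.
-/

namespace Pool.Agent.Work.MP_71a505_core

open Pool.Agent.Work.MP_71a505_nt Pool.Agent.Work.MP_71a505_up

/-- All the data of an exceptional triple. -/
structure Full (a b c r s t : ℤ) (W e h α β γ δ d g x y z xb yb xc : ℝ) : Prop where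
  R : RD a b c r s t W e h α β γ δ
  I : II a b c r s t W e α β γ δ
  X : RX a b c r s t x d
  Q : RQ a b c d g r s t x y z xb yb xc
  g1 : (24 : ℤ) ∣ a * b
  g2 : (24 : ℤ) ∣ a * c
  g3 : (24 : ℤ) ∣ b * c
  cb2 : (c : ℝ) < b ^ 2
  b7 : (b : ℝ) < 10 ^ 10 * a ^ 7
  c4 : (c : ℝ) < 10 ^ 11 * a ^ 4 * b
  a13 : (a : ℝ) ^ 13 < (10 ^ 4 * b) ^ 10
  hf : (b : ℝ) ^ 5 < 2 * (a ^ 8 * c ^ 3)
  hE : (c : ℝ) ^ 3 ≤ 1000000 * (a * b ^ 5) ∨ (b : ℝ) ≤ 1000000 * a ^ 4
  h5 : (a : ℝ) = 1 → (b : ℝ) < 1000000000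
  h36 : 2 ≤ (a : ℝ) →
    (c : ℝ) < 1000000 * (a ^ 2 * b) ∨ (b : ℝ) ^ 7 < 1000000000000 * (a ^ 10 * c ^ 3)

theorem full_of {a b c r s t x l m : ℤ} (h : Sq3 a b c r s t) (ha : 0 < a) (hab : a < b)
    (hbc : b < c) (hD : Data a b c x l m) :
    ∃ W e h' α β γ δ d g x y z xb yb xc : ℝ,
      Full a b c r s t W e h' α β γ δ d g x y z xb yb xc := by
  have hb : 0 < b := ha.trans hab
  have hB := thmB h ha hab hbc hD
  have hd1 := dm_pos_of_data h ha hab hbc hD
  have hX := rx_of h ha hab hbc hd1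
  obtain ⟨W, e, g, α, β, γ, δ, R, I⟩ := base h ha hab hbc hD
  have hz1 := sz1 R
  have hz2 := fun h1 h2 => sz2 R h1 h2
  have hf := f_bound hz1 R I hX
  have hE := E_bound hz1 R I hX (fun q hq hq2 h1 h2 => phiE R.he h1 R.hh h2 hq hq2)
  have ha1R : (1 : ℝ) ≤ a := by exact_mod_cast (show 1 ≤ a from ha)
  have hbR : (0 : ℝ) < b := by exact_mod_cast hb
  have hBR : 100000 * (c : ℝ) ^ 3 < (a : ℝ) ^ 2 * (b : ℝ) ^ 7 := by exact_mod_cast hB
  obtain ⟨-, hcb2, hb7, hc4, ha13⟩ := main_int h ha hab hbc hD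
  obtain ⟨k1, k2, k3⟩ := dvd24_all h ha hab hbc hD
  rcases classify h ha hab hbc hD with hfar | ⟨hx, hb6⟩ | ⟨hdb, hg⟩
  · exfalso
    exact case_far ha1R hbR hBR hE (by exact_mod_cast hfar)
  · exfalso
    have hxR : (((r * s - a * t : ℤ) : ℝ) - r) ^ 2 = (a : ℝ) ^ 2 := by exact_mod_cast hx
    have hs1 : (1 : ℝ) < s := by
      have h2 := h.2.2.2.2.2.2.2.1
      have h3 := h.2.2.2.2.1
      have : 1 < s := by
        by_contra hh
        push Not at hh
        have h4 : s = 1 := by linarith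
        rw [h4] at h2
        have : 0 < a * c := mul_pos ha (hb.trans hbc)
        linarith
      exact_mod_cast this
    have hs := s_eq hX R.r2 hs1 hxR
    have hG := G1_real hz1 R hX.x0 hxR hs (by exact_mod_cast hb6)
    exact G1_excl R I hX hxR hG
  · obtain ⟨Q, hgb⟩ := rq_of h ha hab hbc hd1 hdb rfl rfl hg
    refine ⟨W, e, g, α, β, γ, δ, _, _, _, _, _, _, _, _, R, I, hX, Q, k1, k2, k3,
      by exact_mod_cast hcb2, by exact_mod_cast hb7, by exact_mod_cast hc4,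
      by exact_mod_cast ha13, hf, hE, ?_, ?_⟩
    · intro h1
      by_contra hh
      push Not at hh
      exact F5_bound hz1 hz2 R I hX h1 hh hf (fun q hq hq2 h1 h2 => phi5 R.he h1 R.hh h2 hq hq2)
    · intro h1
      exact F36_bound R I hX h1 hf (fun q hq hq2 h1 h2 => phi36 R.he h1 R.hh h2 hq hq2)

theorem b_le {a b c d g r s t x y z xb yb xc : ℝ} (Q : RQ a b c d g r s t x y z xb yb xc) :
    4 * a * d * g < b ∧ b ≤ 13 * a * (d * g) := by
  have ha := Q.a1
  have hd := Q.d1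
  have hg := Q.g1
  have ha0 : 0 < a := by linarith
  have hd0 : 0 < d := by linarith
  have hg0 : 0 < g := by linarith
  have hx := Q.x0
  have hy := Q.y0
  have hz := Q.z0
  have had : 1 ≤ a * d := by nlinarith
  have hag : 1 ≤ a * g := by nlinarith
  have hdg : 1 ≤ d * g := by nlinarith
  constructor
  · -- `x y z > a d g`
    have h1 : (a * d * g) ^ 2 < (x * y * z) ^ 2 := by
      have e : (x * y * z) ^ 2 = (a * d + 1) * (a * g + 1) * (d * g + 1) := by
        rw [Q.x2, Q.y2, Q.z2]; ring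
      rw [e]
      have : (a * d + 1) * (a * g + 1) * (d * g + 1) = (a * d * g) ^ 2
        + (a * d) * (a * g) + (a * d) * (d * g) + (a * g) * (d * g) + a * d + a * g + d * g
        + 1 := by ring
      rw [this]
      have : 0 < (a * d) * (a * g) + (a * d) * (d * g) + (a * g) * (d * g) + a * d + a * g
        + d * g + 1 := by positivity
      linarith
    have h2 : a * d * g < x * y * z := lt_of_pow_lt_pow_left₀ 2 (by positivity) h1
    rw [Q.eb]; linarith
  · -- `x y ≤ 2 a z`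
    have h1 : (x * y) ^ 2 ≤ (2 * a * z) ^ 2 := by
      have e : (x * y) ^ 2 = (a * d + 1) * (a * g + 1) := by rw [Q.x2, Q.y2]; ring
      have e2 : (2 * a * z) ^ 2 = 4 * a ^ 2 * (d * g + 1) := by rw [Q.z2]; ring
      rw [e, e2]
      have k1 : a * d + 1 ≤ a * (d + 1) := by nlinarith
      have k2 : a * g + 1 ≤ a * (g + 1) := by nlinarith
      have k3 : (d + 1) * (g + 1) ≤ 4 * (d * g + 1) := by nlinarith
      calc (a * d + 1) * (a * g + 1) ≤ (a * (d + 1)) * (a * (g + 1)) :=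
            mul_le_mul k1 k2 (by positivity) (by positivity)
        _ = a ^ 2 * ((d + 1) * (g + 1)) := by ring
        _ ≤ a ^ 2 * (4 * (d * g + 1)) := mul_le_mul_of_nonneg_left k3 (by positivity)
        _ = _ := by ring
    have h2 : x * y ≤ 2 * a * z := le_of_sq_le_sq h1 (by positivity)
    have h3 : x * y * z ≤ 2 * a * (d * g + 1) := by
      calc x * y * z ≤ (2 * a * z) * z := mul_le_mul_of_nonneg_right h2 hz.le
        _ = 2 * a * z ^ 2 := by ring
        _ = 2 * a * (d * g + 1) := by rw [Q.z2]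
    rw [Q.eb]
    have h4 : a ≤ a * (d * g) := by nlinarith
    have h5 : d ≤ a * (d * g) := by
      have : d * 1 ≤ d * (a * g) := mul_le_mul_of_nonneg_left hag hd0.le
      linarith
    have h6 : g ≤ a * (d * g) := by
      have : g * 1 ≤ g * (a * d) := mul_le_mul_of_nonneg_left had hg0.le
      linarith
    have h7 : 2 * x * y * z = 2 * (x * y * z) := by ring
    have h8 : 2 * a * d * g = 2 * (a * (d * g)) := by ring
    have h9 : 2 * a * (d * g + 1) = 2 * (a * (d * g)) + 2 * a := by ring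
    rw [h7, h8]
    have h10 : 13 * a * (d * g) = 13 * (a * (d * g)) := by ring
    rw [h10]
    linarith

/-- no small pair -/
theorem Full.roots {a b c r s t : ℤ} {W e h α β γ δ d g x y z xb yb xc : ℝ}
    (F : Full a b c r s t W e h α β γ δ d g x y z xb yb xc) :
    1000 < x ∧ 1000 < y ∧ 1000 < z := by
  have hb := b_le F.Q
  have ha := F.Q.a1
  have hd := F.Q.d1
  have hg := F.Q.g1
  have ha0 : (0 : ℝ) < a := by linarith
  have hd0 : 0 < d := by linarith
  have hg0 : 0 < g := by linarith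
  have hb0 : (0 : ℝ) < b := lt_trans (by positivity) hb.1
  have key : (a : ℝ) ≤ 10 ^ 46 → d ≤ 10 ^ 46 → g ≤ 10 ^ 46 → 1000 < x ∧ 1000 < y ∧ 1000 < z := by
    intro h1 h2 h3
    have e : ((10 ^ 46 : ℕ) : ℝ) = 10 ^ 46 := by norm_cast
    have := core_real coreH_1000 F.g1 F.g2 F.g3 F.R F.I F.X F.Q (by rw [e]; exact h1)
      (by rw [e]; exact h2) (by rw [e]; exact h3)
    exact_mod_cast this
  -- a product of two numbers bounds them
  have prod_le : ∀ {u v w : ℝ}, 1 ≤ u → 1 ≤ v → 0 < w → w ≤ 1000 → u * v + 1 = w ^ 2 →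
      u ≤ 10 ^ 6 ∧ v ≤ 10 ^ 6 := by
    intro u v w hu hv hw0 hw h
    have h1 : w ^ 2 ≤ 1000 ^ 2 := pow_le_pow_left₀ hw0.le hw 2
    constructor <;> nlinarith
  by_contra hh
  have hor : x ≤ 1000 ∨ y ≤ 1000 ∨ z ≤ 1000 := by
    by_contra h'
    push Not at h'
    exact hh h'
  apply hh
  rcases hor with h1 | h1 | h1
  · obtain ⟨k1, k2⟩ := prod_le ha hd F.Q.x0 h1 F.Q.x2
    apply key (k1.trans (by norm_num)) (k2.trans (by norm_num))
    have h2 : a * (4 * (d * g)) < a * (10 ^ 10 * (a : ℝ) ^ 6) := by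
      calc a * (4 * (d * g)) = 4 * a * d * g := by ring
        _ < b := hb.1
        _ < 10 ^ 10 * a ^ 7 := F.b7
        _ = _ := by ring
    have h3 := lt_of_mul_lt_mul_left h2 ha0.le
    have h4 : (a : ℝ) ^ 6 ≤ (10 ^ 6) ^ 6 := pow_le_pow_left₀ ha0.le k1 6
    have h5 : g ≤ d * g := by nlinarith
    nlinarith
  · obtain ⟨k1, k2⟩ := prod_le ha hg F.Q.y0 h1 F.Q.y2
    apply key (k1.trans (by norm_num)) ?_ (k2.trans (by norm_num))
    have h2 : ((a : ℝ) * b) * (4 * d) < (a * b) * (10 ^ 11 * (a : ℝ) ^ 3) := by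
      calc ((a : ℝ) * b) * (4 * d) = 4 * a * b * d := by ring
        _ < c := F.X.dc
        _ < 10 ^ 11 * a ^ 4 * b := F.c4
        _ = _ := by ring
    have h3 := lt_of_mul_lt_mul_left h2 (by positivity)
    have h4 : (a : ℝ) ^ 3 ≤ (10 ^ 6) ^ 3 := pow_le_pow_left₀ ha0.le k1 3
    nlinarith
  · obtain ⟨k1, k2⟩ := prod_le hd hg F.Q.z0 h1 F.Q.z2
    refine key ?_ (k1.trans (by norm_num)) (k2.trans (by norm_num))
    have h0 : d * g ≤ 10 ^ 6 := by
      have : z ^ 2 ≤ 1000 ^ 2 := pow_le_pow_left₀ F.Q.z0.le h1 2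
      linarith [F.Q.z2]
    have h2 : (b : ℝ) ≤ 13 * 10 ^ 6 * a := by
      calc (b : ℝ) ≤ 13 * a * (d * g) := hb.2
        _ ≤ 13 * a * 10 ^ 6 := mul_le_mul_of_nonneg_left h0 (by positivity)
        _ = _ := by ring
    by_contra hbig
    push Not at hbig
    have h3 : (10 ^ 4 * (b : ℝ)) ^ 10 ≤ (13 * 10 ^ 10 * a) ^ 10 :=
      pow_le_pow_left₀ (by positivity) (by linarith) 10
    have h4 : (a : ℝ) ^ 10 * (a : ℝ) ^ 3 < (a : ℝ) ^ 10 * (13 * 10 ^ 10) ^ 10 := by
      calc (a : ℝ) ^ 10 * (a : ℝ) ^ 3 = (a : ℝ) ^ 13 := by ring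
        _ < (10 ^ 4 * (b : ℝ)) ^ 10 := F.a13
        _ ≤ (13 * 10 ^ 10 * (a : ℝ)) ^ 10 := h3
        _ = _ := by ring
    have h5 := lt_of_mul_lt_mul_left h4 (by positivity)
    have h6 : ((10 : ℝ) ^ 46) ^ 3 < (a : ℝ) ^ 3 := pow_lt_pow_left₀ hbig (by positivity) (by norm_num)
    have h7 : ((13 : ℝ) * 10 ^ 10) ^ 10 ≤ (10 ^ 46) ^ 3 := by norm_num
    linarith

/-- integrality: the roots are at least 1001, the products at least `10 ^ 6` -/
theorem Full.prods {a b c r s t : ℤ} {W e h α β γ δ d g x y z xb yb xc : ℝ}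
    (F : Full a b c r s t W e h α β γ δ d g x y z xb yb xc) :
    10 ^ 6 ≤ a * d ∧ 10 ^ 6 ≤ a * g ∧ 10 ^ 6 ≤ d * g ∧ 1001 ≤ x ∧ 1001 ≤ y ∧ 1001 ≤ z := by
  obtain ⟨h1, h2, h3⟩ := F.roots
  have key : ∀ {v : ℝ}, IsI v → 1000 < v → 1001 ≤ v := by
    intro v hv h
    obtain ⟨n, rfl⟩ := hv
    have : (1000 : ℤ) < n := by exact_mod_cast h
    have : (1001 : ℤ) ≤ n := by omega
    exact_mod_cast this
  have k1 := key F.X.ix h1
  have k2 := key F.Q.iy h2
  have k3 := key F.Q.iz h3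
  have sq : ∀ {v : ℝ}, 1001 ≤ v → (10 : ℝ) ^ 6 + 1 ≤ v ^ 2 := by
    intro v hv
    nlinarith
  refine ⟨?_, ?_, ?_, k1, k2, k3⟩
  · have := sq k1; have := F.Q.x2; linarith
  · have := sq k2; have := F.Q.y2; linarith
  · have := sq k3; have := F.Q.z2; linarith

end Pool.Agent.Work.MP_71a505_core
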