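import Pool.Agent.Work.MP_71a505_core.CSound
import Pool.Agent.Work.MP_71a505_nt.Coprime

/-!
Completeness of the enumeration of the Diophantine triples having a small pair.
-/

namespace Pool.Agent.Work.MP_71a505_core

open Pool.Agent.Work.MP_71a505_nt

/-- `{A, B, C}` with square roots `z, y, x` of `A B + 1`, `A C + 1`, `B C + 1` -/
def St (A B C z y x : ℕ) : Prop :=
  A * B + 1 = z * z ∧ A * C + 1 = y * y ∧ B * C + 1 = x * x

theorem St.swap {A B C z y x : ℕ} (h : St A B C z y x) : St B A C z x y :=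
  ⟨by rw [← h.1]; ring, h.2.2, h.2.1⟩

def Good (L w0 A B C z y x : ℕ) : Prop := ∃ f, run L w0 f A B C z y x = true

theorem rec_le {n m : ℕ} {v : Bool} : (Bool.rec true v (Nat.ble n m) : Bool) = true ↔
    (n ≤ m → v = true) := by
  cases h : Nat.ble n m
  · simp only [true_iff]
    intro h1
    rw [Nat.ble_eq_true_of_le h1] at h
    cases h
  · simp only
    constructor
    · intro h1 _; exact h1
    · intro h1; exact h1 (Nat.le_of_ble_eq_true h)

theorem Good.step {L w0 A B C z y x : ℕ} (h : Good L w0 A B C z y x) (hC : C ≤ L) :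
    NodeNo A B C z y x ∧
      Good L w0 A B (dp A B C x y z) z (z * y + A * x) (z * x + B * y) ∧
      (y ≤ w0 → Good L w0 A C (dp A B C x y z) y (z * y + A * x) (x * y + C * z)) ∧
      (x ≤ w0 → Good L w0 B C (dp A B C x y z) x (z * x + B * y) (x * y + C * z)) := by
  obtain ⟨f, hf⟩ := h
  cases f with
  | zero => exact absurd hf (by simp [run])
  | succ f =>
    have e : run L w0 (f + 1) A B C z y x
      = (Bool.rec true (expand1 w0 (run L w0 f) A B C z y x) (Nat.ble C L) : Bool) := rfl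
    rw [e, rec_le] at hf
    have h1 := hf hC
    unfold expand1 at h1
    rw [force_eq, force_eq, force_eq, force_eq] at h1
    unfold expand2 at h1
    rw [rec_and, rec_and, rec_and, Bool.and_eq_true, Bool.and_eq_true, Bool.and_eq_true,
      rec_le, rec_le] at h1
    obtain ⟨h2, h3, h4, h5⟩ := h1
    exact ⟨node_sound h2, ⟨f, h5⟩, fun hy => ⟨f, h4 hy⟩, fun hx => ⟨f, h3 hx⟩⟩

/-- predecessor in the tree -/
theorem pred_exists {m n w k p q : ℕ} (hm : 0 < m) (hn : 0 < n) (hmk : m < k) (hnk : n < k)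
    (hw : 0 < w) (hp : 0 < p) (hq : 0 < q) (h : St m n k w p q) :
    ∃ k' p' q' : ℕ, k' < k ∧ 0 < p' ∧ 0 < q' ∧ St m n k' w p' q' ∧
      dp m n k' q' p' w = k ∧ w * p' + m * q' = p ∧ w * q' + n * p' = q := by
  obtain ⟨h1, h2, h3⟩ := h
  have z1 : (m : ℤ) * n + 1 = (w : ℤ) ^ 2 := by rw [sq]; exact_mod_cast h1
  have z2 : (m : ℤ) * k + 1 = (p : ℤ) ^ 2 := by rw [sq]; exact_mod_cast h2
  have z3 : (n : ℤ) * k + 1 = (q : ℤ) ^ 2 := by rw [sq]; exact_mod_cast h3
  have hm' : (0 : ℤ) < m := by exact_mod_cast hm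
  have hn' : (0 : ℤ) < n := by exact_mod_cast hn
  have hmk' : (m : ℤ) < k := by exact_mod_cast hmk
  have hnk' : (n : ℤ) < k := by exact_mod_cast hnk
  have hk' : (0 : ℤ) < k := hn'.trans hnk'
  have hw' : (0 : ℤ) < w := by exact_mod_cast hw
  have hp' : (0 : ℤ) < p := by exact_mod_cast hp
  have hq' : (0 : ℤ) < q := by exact_mod_cast hq
  have S : Sq3 (m : ℤ) n k w p q := ⟨hm'.le, hn'.le, hk'.le, hw', hp', hq', z1, z2, z3⟩
  have d0 := dm_nonneg hm' hn' S
  have dl := (dm_lt hm' hn' hmk' hnk' S).2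
  have du := dm_u S
  have dv := dm_v S
  have c1 : (m : ℤ) * q < w * p := by
    apply lt_of_pow_lt_pow_left₀ 2 (by positivity)
    have e : ((w : ℤ) * p) ^ 2 - (m * q) ^ 2 = 1 + m * (n + k - m) := by
      linear_combination (-(p : ℤ) ^ 2) * z1 - (m * n + 1 : ℤ) * z2 + (m : ℤ) ^ 2 * z3
    have : (0 : ℤ) < m * (n + k - m) := mul_pos hm' (by linarith)
    linarith
  have c2 : (n : ℤ) * p < w * q := by
    apply lt_of_pow_lt_pow_left₀ 2 (by positivity)
    have e : ((w : ℤ) * q) ^ 2 - (n * p) ^ 2 = 1 + n * (m + k - n) := by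
      linear_combination (-(q : ℤ) ^ 2) * z1 - (m * n + 1 : ℤ) * z3 + (n : ℤ) ^ 2 * z2
    have : (0 : ℤ) < n * (m + k - n) := mul_pos hn' (by linarith)
    linarith
  obtain ⟨k1, hk1⟩ := Int.eq_ofNat_of_zero_le d0
  obtain ⟨p1, hp1⟩ := Int.eq_ofNat_of_zero_le (show (0 : ℤ) ≤ w * p - m * q by linarith)
  obtain ⟨q1, hq1⟩ := Int.eq_ofNat_of_zero_le (show (0 : ℤ) ≤ w * q - n * p by linarith)
  rw [hk1] at dl du dv
  have hk2 : (k1 : ℤ) = m + n + k + 2 * m * n * k - 2 * w * p * q := by rw [← hk1]; rfl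
  refine ⟨k1, p1, q1, by exact_mod_cast dl, ?_, ?_, ⟨h1, ?_, ?_⟩, ?_, ?_, ?_⟩
  · have : (0 : ℤ) < p1 := by rw [← hp1]; linarith
    exact_mod_cast this
  · have : (0 : ℤ) < q1 := by rw [← hq1]; linarith
    exact_mod_cast this
  · have : (m : ℤ) * k1 + 1 = p1 * p1 := by
      rw [← hp1]
      linear_combination du
    exact_mod_cast this
  · have : (n : ℤ) * k1 + 1 = q1 * q1 := by
      rw [← hq1]
      linear_combination dv
    exact_mod_cast this
  · have : ((m + n + k1 + 2 * (m * n * k1 + q1 * p1 * w) : ℕ) : ℤ) = k := by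
      push_cast
      rw [hk2, ← hp1, ← hq1]
      linear_combination (-2 * (w : ℤ) * p * q + 2 * (n * p ^ 2 + m * q ^ 2)) * z1
        + 2 * ((m : ℤ) * n + 1) * n * z2 + 2 * ((m : ℤ) * n + 1) * m * z3
    exact_mod_cast this
  · have : ((w * p1 + m * q1 : ℕ) : ℤ) = p := by
      push_cast
      rw [← hp1, ← hq1]
      linear_combination (-(p : ℤ)) * z1
    exact_mod_cast this
  · have : ((w * q1 + n * p1 : ℕ) : ℤ) = q := by
      push_cast
      rw [← hp1, ← hq1]
      linear_combination (-(q : ℤ)) * z1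
    exact_mod_cast this

theorem ne_of_sq {m w : ℕ} (hm : 0 < m) : m * m + 1 ≠ w * w := by
  intro h
  have h1 : m < w := Nat.mul_self_lt_mul_self_iff.1 (by omega)
  have h2 : (m + 1) * (m + 1) ≤ w * w := Nat.mul_self_le_mul_self h1
  have h3 : (m + 1) * (m + 1) = m * m + 2 * m + 1 := by ring
  omega

theorem pairs_use {L w0 w m n : ℕ} (hp : pairs L w0 w = true) (hm : 0 < m) (hmn : m < n)
    (h : m * n + 1 = w * w) :
    Good L w0 m n (m + n + 2 * w) w (m + w) (n + w) := by
  unfold pairs at hp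
  rw [scan_iff] at hp
  have hmw : m < w := by
    apply Nat.mul_self_lt_mul_self_iff.1
    have : m * m < m * n := Nat.mul_lt_mul_of_pos_left hmn hm
    omega
  have e1 : Nat.pred (Nat.mul w w) = m * n := by
    have : Nat.mul w w = m * n + 1 := h.symm
    rw [this]; rfl
  have h1 := hp m hm (by
    have : Nat.pred w = w - 1 := rfl
    omega) (by rw [e1]; exact Dvd.intro _ rfl)
  have e4 : Nat.div (m * n) m = n := Nat.mul_div_cancel_left n hm
  rw [force_eq, e1, e4] at h1
  exact ⟨60, h1⟩

/-- the kernel computation for all square roots up to `w0` -/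
def CoreH (L w0 : ℕ) : Prop := ∀ w ≤ w0, pairs L w0 w = true

def Vis (L w0 A B C z y x : ℕ) : Prop := Good L w0 A B C z y x ∨ Good L w0 B A C z x y

theorem dp_comm (A B C x y z : ℕ) : dp A C B x z y = dp A B C x y z := by
  have ec : ∀ a d b r s t, dp a d b r s t = a + d + b + 2 * (a * d * b + r * s * t) :=
    fun _ _ _ _ _ _ => rfl
  rw [ec, ec]; ring

theorem dp_rot (A B C x y z : ℕ) : dp C A B z x y = dp A B C x y z := by
  have ec : ∀ a d b r s t, dp a d b r s t = a + d + b + 2 * (a * d * b + r * s * t) :=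
    fun _ _ _ _ _ _ => rfl
  rw [ec, ec]; ring

/-- induction step when `A < B` -/
theorem vis_step {L w0 A B C z y x : ℕ} (H : CoreH L w0)
    (ih : ∀ C' < C, ∀ A B z y x : ℕ, 0 < A → 0 < B → A < C' → B < C' → 0 < z → 0 < y → 0 < x →
      St A B C' z y x → z ≤ w0 → C' ≤ L → Vis L w0 A B C' z y x)
    (hA : 0 < A) (hAB : A < B) (hBC : B < C) (hz : 0 < z) (hy : 0 < y) (hx : 0 < x)
    (h : St A B C z y x) (hzw : z ≤ w0) (hC : C ≤ L) : Vis L w0 A B C z y x := by
  obtain ⟨D, y1, x1, hD, hy1, hx1, h1, e1, e2, e3⟩ :=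
    pred_exists hA (hA.trans hAB) (hAB.trans hBC) hBC hz hy hx h
  rcases Nat.eq_zero_or_pos D with hD0 | hD0
  · -- initial pair
    subst hD0
    have hy1' : y1 = 1 := by
      have := h1.2.1
      rw [Nat.mul_zero, Nat.zero_add] at this
      exact Nat.eq_one_of_mul_eq_one_right this.symm
    have hx1' : x1 = 1 := by
      have := h1.2.2
      rw [Nat.mul_zero, Nat.zero_add] at this
      exact Nat.eq_one_of_mul_eq_one_right this.symm
    subst hy1' hx1'
    left
    have hg := pairs_use (H z hzw) hA hAB h.1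
    have f1 : A + B + 2 * z = C := by
      rw [← e1]
      have : dp A B 0 1 1 z = A + B + 0 + 2 * (A * B * 0 + 1 * 1 * z) := rfl
      rw [this]; ring
    have f2 : A + z = y := by rw [← e2]; ring
    have f3 : B + z = x := by rw [← e3]; ring
    rw [f1, f2, f3] at hg
    exact hg
  · have hDB : D ≠ B := by
      intro hh
      rw [hh] at h1
      exact ne_of_sq (hA.trans hAB) h1.2.2
    rcases Nat.lt_or_ge B D with hBD | hBD
    · -- `D` is the largest
      rcases ih D hD A B z y1 x1 hA (hA.trans hAB) (hAB.trans hBD) hBD hz hy1 hx1 h1 hzw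
        (hD.le.trans hC) with hg | hg
      · left
        have := (hg.step (hD.le.trans hC)).2.1
        rw [e1, e2, e3] at this
        exact this
      · right
        have := (hg.step (hD.le.trans hC)).2.1
        have e1' : dp B A D y1 x1 z = C := by
          rw [← e1]
          have ec : ∀ a d b r s t, dp a d b r s t = a + d + b + 2 * (a * d * b + r * s * t) :=
            fun _ _ _ _ _ _ => rfl
          rw [ec, ec]; ring
        rw [e1', e2, e3] at this
        exact this
    · -- `B` is the largest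
      have hDB' : D < B := lt_of_le_of_ne hBD hDB
      have hyz : y1 ≤ z := by
        apply Nat.mul_self_le_mul_self_iff.1
        rw [← h1.1, ← h1.2.1]
        exact Nat.succ_le_succ (Nat.mul_le_mul_left A hBD)
      have S' : St A D B y1 z x1 := ⟨h1.2.1, h1.1, by rw [← h1.2.2]; ring⟩
      rcases ih B hBC A D y1 z x1 hA hD0 hAB hDB' hy1 hz hx1 S' (hyz.trans hzw)
        (hBC.le.trans hC) with hg | hg
      · left
        have := (hg.step (hBC.le.trans hC)).2.2.1 hzw
        have e1' : dp A D B x1 z y1 = C := by rw [← e1]; exact dp_comm _ _ _ _ _ _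
        have e2' : y1 * z + A * x1 = y := by rw [← e2]; ring
        have e3' : x1 * z + B * y1 = x := by rw [← e3]; ring
        rw [e1', e2', e3'] at this
        exact this
      · left
        have := (hg.step (hBC.le.trans hC)).2.2.2 hzw
        have e1' : dp D A B z x1 y1 = C := by rw [← e1]; exact dp_rot _ _ _ _ _ _
        have e2' : y1 * z + A * x1 = y := by rw [← e2]; ring
        have e3' : z * x1 + B * y1 = x := by rw [← e3]
        rw [e1', e2', e3'] at this
        exact this

theorem vis_all {L w0 : ℕ} (H : CoreH L w0) : ∀ C A B z y x : ℕ, 0 < A → 0 < B → A < C → B < C →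
    0 < z → 0 < y → 0 < x → St A B C z y x → z ≤ w0 → C ≤ L → Vis L w0 A B C z y x := by
  intro C
  induction C using Nat.strong_induction_on with
  | _ C ih =>
    intro A B z y x hA hB hAC hBC hz hy hx h hzw hC
    rcases Nat.lt_trichotomy A B with hAB | hAB | hAB
    · exact vis_step H ih hA hAB hBC hz hy hx h hzw hC
    · exfalso
      have := h.1
      rw [← hAB] at this
      exact ne_of_sq hA this
    · exact (vis_step H ih hB hAB hAC hz hx hy h.swap hzw hC).symm

end Pool.Agent.Work.MP_71a505_core
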