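import Pool.Agent.Work.MP_71a505_core.CChain

/-!
The core: if one of the pairs `(d, g)`, `(a, d)`, `(a, g)` has a small square root then one of the
numbers is huge.
-/

namespace Pool.Agent.Work.MP_71a505_core

theorem coreRange_use {L w0 w1 n : ℕ} (h : coreRange L w0 w1 n = true) :
    ∀ w, w1 ≤ w → w < w1 + n → pairs L w0 w = true := by
  unfold coreRange at h
  rw [allLt_iff] at h
  intro w h1 h2
  have := h (w - w1) (by omega)
  have e : Nat.add w1 (w - w1) = w := by
    have : Nat.add w1 (w - w1) = w1 + (w - w1) := rfl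
    omega
  rwa [e] at this

theorem root_le {A B C z y : ℕ} (hA : A * B + 1 = z * z) (h : A * C + 1 = y * y) (hBC : B ≤ C) :
    z ≤ y := by
  apply Nat.mul_self_le_mul_self_iff.1
  rw [← hA, ← h]
  exact Nat.succ_le_succ (Nat.mul_le_mul_left A hBC)

theorem core_nat {L w0 : ℕ} (H : CoreH L w0) {a d g x y z : ℕ}
    (ha : 0 < a) (hd : 0 < d) (hg : 0 < g) (hx : 0 < x) (hy : 0 < y) (hz : 0 < z)
    (x2 : a * d + 1 = x * x) (y2 : a * g + 1 = y * y) (z2 : d * g + 1 = z * z)
    (haL : a ≤ L) (hdL : d ≤ L) (hgL : g ≤ L) (hw : x ≤ w0 ∨ y ≤ w0 ∨ z ≤ w0) :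
    No a d g x y z := by
  have x2' : d * a + 1 = x * x := by rw [← x2]; ring
  have y2' : g * a + 1 = y * y := by rw [← y2]; ring
  have z2' : g * d + 1 = z * z := by rw [← z2]; ring
  have had : a ≠ d := by rintro rfl; exact ne_of_sq ha x2
  have hag : a ≠ g := by rintro rfl; exact ne_of_sq ha y2
  have hdg : d ≠ g := by rintro rfl; exact ne_of_sq hd z2
  by_cases h1 : a < g ∧ d < g
  · -- `g` is the largest
    have k1 : x ≤ y := root_le x2 y2 h1.2.le
    have k2 : x ≤ z := root_le x2' z2 h1.1.le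
    have hxw : x ≤ w0 := by rcases hw with h | h | h <;> omega
    rcases vis_all H g a d x y z ha hd h1.1 h1.2 hx hy hz ⟨x2, y2, z2⟩ hxw hgL with h | h
    · exact (h.step hgL).1.n1
    · exact (h.step hgL).1.n2
  by_cases h2 : a < d ∧ g < d
  · -- `d` is the largest
    have k1 : y ≤ x := root_le y2 x2 h2.2.le
    have k2 : y ≤ z := root_le y2' z2' h2.1.le
    have hyw : y ≤ w0 := by rcases hw with h | h | h <;> omega
    rcases vis_all H d a g y x z ha hg h2.1 h2.2 hy hx hz ⟨y2, x2, z2'⟩ hyw hdL with h | h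
    · exact (h.step hdL).1.n3
    · exact (h.step hdL).1.n5
  · have h3 : d < a ∧ g < a := by omega
    have k1 : z ≤ x := root_le z2 x2' h3.2.le
    have k2 : z ≤ y := root_le z2' y2' h3.1.le
    have hzw : z ≤ w0 := by rcases hw with h | h | h <;> omega
    rcases vis_all H a d g z x y hd hg h3.1 h3.2 hz hx hy ⟨z2, x2', y2'⟩ hzw haL with h | h
    · exact (h.step haL).1.n4
    · exact (h.step haL).1.n6

end Pool.Agent.Work.MP_71a505_core
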