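import Mathlib
import Pool.Agent.Work.MP_71a505_core.CDefs

/-!
Elementary lemmas on the definitions of the kernel computation.
-/

namespace Pool.Agent.Work.MP_71a505_core

theorem force_eq (n : Nat) (f : Nat → Bool) : force n f = f n := by cases n <;> rfl

theorem rec_and (a r : Bool) : (Bool.rec false r a : Bool) = (a && r) := by
  cases a <;> rfl

theorem allLt_iff (n : Nat) (f : Nat → Bool) : allLt n f = true ↔ ∀ i < n, f i = true := by
  induction n with
  | zero => simp [allLt]
  | succ n ih =>
    have e : allLt (n + 1) f = (Bool.rec false (allLt n f) (f n) : Bool) := rfl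
    rw [e, rec_and, Bool.and_eq_true, ih]
    constructor
    · rintro ⟨h1, h2⟩ i hi
      rcases Nat.lt_succ_iff_lt_or_eq.1 hi with h | h
      · exact h2 i h
      · rw [h]; exact h1
    · intro h
      exact ⟨h n (by omega), fun i hi => h i (by omega)⟩

theorem scan_iff (N : Nat) (hit : Nat → Bool) (w : Nat) :
    scan N hit w = true ↔ ∀ m, 0 < m → m ≤ w → m ∣ N → hit m = true := by
  induction w with
  | zero =>
    constructor
    · intro _ m h1 h2; omega
    · intro _; rfl
  | succ w ih =>
    have e : scan N hit (w + 1) = (Nat.rec (Bool.rec false (scan N hit w) (hit (w + 1)))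
      (fun _ _ => scan N hit w) (N % (w + 1)) : Bool) := rfl
    rw [e]
    by_cases hd : (w + 1) ∣ N
    · rw [Nat.mod_eq_zero_of_dvd hd]
      have e2 : (Nat.rec (Bool.rec false (scan N hit w) (hit (w + 1)))
        (fun _ _ => scan N hit w) 0 : Bool) = (Bool.rec false (scan N hit w) (hit (w + 1))) := rfl
      rw [e2, rec_and, Bool.and_eq_true, ih]
      constructor
      · rintro ⟨h1, h2⟩ m hm hmw hmN
        rcases Nat.lt_or_ge w m with h | h
        · have : m = w + 1 := by omega
          rw [this]; exact h1
        · exact h2 m hm h hmN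
      · intro h
        exact ⟨h _ (by omega) le_rfl hd, fun m h1 h2 h3 => h m h1 (by omega) h3⟩
    · obtain ⟨k, hk⟩ : ∃ k, N % (w + 1) = k + 1 := by
        rcases Nat.eq_zero_or_pos (N % (w + 1)) with h | h
        · exact absurd (Nat.dvd_of_mod_eq_zero h) hd
        · exact ⟨N % (w + 1) - 1, by omega⟩
      rw [hk]
      have e2 : (Nat.rec (Bool.rec false (scan N hit w) (hit (w + 1)))
        (fun _ _ => scan N hit w) (k + 1) : Bool) = scan N hit w := rfl
      rw [e2, ih]
      constructor
      · intro h m hm hmw hmN
        rcases Nat.lt_or_ge w m with h' | h'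
        · exact absurd (by rw [show w + 1 = m by omega]; exact hmN) hd
        · exact h m hm h' hmN
      · intro h m h1 h2 h3
        exact h m h1 (by omega) h3

end Pool.Agent.Work.MP_71a505_core
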