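import Pool.Agent.Work.MP_71a505_core.CDefs

namespace Pool.Agent.Work.MP_71a505_core

set_option maxRecDepth 100000 in
theorem tabs_ok : tabs.all (fun h => tabOK h.1 h.2.1 h.2.2) = true := by decide +kernel

end Pool.Agent.Work.MP_71a505_core
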