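import Pool.Agent.Work.MP_71a505_core.CCore
import Pool.Agent.Work.MP_71a505_fin.Gens

/-!
The core theorem for the data of an exceptional triple.
-/

namespace Pool.Agent.Work.MP_71a505_core

open Pool.Agent.Work.MP_71a505_up Pool.Agent.Work.MP_71a505_fin

/-- nonnegative integers as natural numbers -/
theorem nat_of {v : ℝ} (h : IsI v) (h0 : 0 < v) : ∃ n : ℕ, 0 < n ∧ v = (n : ℝ) := by
  obtain ⟨k, rfl⟩ := h
  have hk : 0 < k := by exact_mod_cast h0
  obtain ⟨n, rfl⟩ := Int.eq_ofNat_of_zero_le hk.le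
  exact ⟨n, by exact_mod_cast hk, by push_cast; rfl⟩

/-- If one of the three pairs has a small product, then one of the numbers is large. -/
theorem core_real {L w0 : ℕ} (H : CoreH L w0)
    {a b c r s t : ℤ} {W e h α β γ δ d g x y z xb yb xc : ℝ}
    (g1 : (24 : ℤ) ∣ a * b) (g2 : (24 : ℤ) ∣ a * c) (g3 : (24 : ℤ) ∣ b * c)
    (R : RD a b c r s t W e h α β γ δ) (I : II a b c r s t W e α β γ δ)
    (X : RX a b c r s t x d) (Q : RQ a b c d g r s t x y z xb yb xc)
    (haL : (a : ℝ) ≤ L) (hdL : d ≤ L) (hgL : g ≤ L) :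
    (w0 : ℝ) < x ∧ (w0 : ℝ) < y ∧ (w0 : ℝ) < z := by
  have V := dv_of g1 g2 g3 R I
  have d2 : (2 : ℤ) ∣ 24 := by norm_num
  have d3 : (3 : ℤ) ∣ 24 := by norm_num
  have er : a * b + 1 = r ^ 2 := by exact_mod_cast R.r2
  have s2 : a * c + 1 = s ^ 2 := by exact_mod_cast R.s2
  have t2 : b * c + 1 = t ^ 2 := by exact_mod_cast R.t2
  have r2 := not_dvd_of_dvd Int.prime_two (d2.trans g1) er
  have s2' := not_dvd_of_dvd Int.prime_two (d2.trans g2) s2
  have t2' := not_dvd_of_dvd Int.prime_two (d2.trans g3) t2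
  obtain ⟨uU, hU⟩ := V.iU
  obtain ⟨uM, hM⟩ := V.iM
  obtain ⟨uW, hW⟩ := V.iW
  have hac : a * (c - b) = (4 * uM) * (4 * uM + 2 * (4 * uU)) := by
    have : (a : ℝ) * (c - b) = (4 * uM) * (4 * uM + 2 * (4 * uU)) := by
      rw [hM, hU]; linear_combination R.acb
    exact_mod_cast this
  have hbc : b * (c - a) = (4 * uW) * (4 * uW + 2 * (4 * uU)) := by
    have : (b : ℝ) * (c - a) = (4 * uW) * (4 * uW + 2 * (4 * uU)) := by
      rw [hW, hU]; linear_combination R.bca
    exact_mod_cast this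
  have hMW : (4 * uM) * (4 * uW) = (4 * uU) ^ 2 := by
    have : ((4 : ℝ) * uM) * (4 * uW) = (4 * uU) ^ 2 := by
      rw [hM, hU, hW]; ring
    exact_mod_cast this
  obtain ⟨h16, h16', h16''⟩ := sixteen_all er s2 t2 r2 s2' t2' (Dvd.intro _ rfl)
    (Dvd.intro _ rfl) (Dvd.intro _ rfl) hac hbc
  have c48 : ∀ {n : ℤ}, (16 : ℤ) ∣ n → (24 : ℤ) ∣ n → (48 : ℤ) ∣ n := by
    intro n h1 h2; omega
  have ha0 : (0 : ℝ) < a := by linarith [Q.a1]
  have hd0 : (0 : ℝ) < d := by linarith [Q.d1]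
  have hg0 : (0 : ℝ) < g := by linarith [Q.g1]
  obtain ⟨na, na0, ea⟩ := nat_of (IsI.int a) ha0
  obtain ⟨nd, nd0, rfl⟩ := nat_of X.id' hd0
  obtain ⟨ng, ng0, rfl⟩ := nat_of Q.ig hg0
  obtain ⟨nx, nx0, rfl⟩ := nat_of X.ix Q.x0
  obtain ⟨ny, ny0, rfl⟩ := nat_of Q.iy Q.y0
  obtain ⟨nz, nz0, rfl⟩ := nat_of Q.iz Q.z0
  have ea' : a = (na : ℤ) := by exact_mod_cast ea
  subst ea'
  have x2 : na * nd + 1 = nx * nx := by
    have : (na : ℝ) * nd + 1 = nx * nx := by
      have := Q.x2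
      push_cast at this
      linear_combination this
    exact_mod_cast this
  have y2 : na * ng + 1 = ny * ny := by
    have : (na : ℝ) * ng + 1 = ny * ny := by
      have := Q.y2
      push_cast at this
      linear_combination this
    exact_mod_cast this
  have z2 : nd * ng + 1 = nz * nz := by
    have : (nd : ℝ) * ng + 1 = nz * nz := by
      have := Q.z2
      linear_combination this
    exact_mod_cast this
  obtain ⟨nb, hnb⟩ : ∃ nb : ℕ, nb = na + nd + ng + 2 * (na * nd * ng + nx * ny * nz) := ⟨_, rfl⟩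
  have eb : b = (nb : ℤ) := by
    have : (b : ℝ) = (nb : ℝ) := by
      rw [hnb]
      have := Q.eb
      push_cast at this ⊢
      linear_combination this
    exact_mod_cast this
  subst eb
  obtain ⟨nc, hnc⟩ : ∃ nc : ℕ, nc = na + nb + nd + 2 * (na * nb * nd
      + (na * nz + nx * ny) * nx * (nd * ny + nx * nz)) := ⟨_, rfl⟩
  have ec : c = (nc : ℤ) := by
    have : (c : ℝ) = (nc : ℝ) := by
      rw [hnc]
      have h1 := Q.ec
      rw [Q.er, Q.exb] at h1
      push_cast at h1 ⊢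
      linear_combination h1
    exact_mod_cast this
  subst ec
  have hbn : nb = bb na nd ng nx ny nz := hnb
  have hcn : nc = cc na nd ng nx ny nz := by rw [hnc, hnb]; rfl
  by_contra hh
  have hw : nx ≤ w0 ∨ ny ≤ w0 ∨ nz ≤ w0 := by
    by_contra h'
    push Not at h'
    exact hh ⟨by exact_mod_cast h'.1, by exact_mod_cast h'.2.1, by exact_mod_cast h'.2.2⟩
  have key := core_nat H na0 nd0 ng0 nx0 ny0 nz0 x2 y2 z2 (by exact_mod_cast haL)
    (by exact_mod_cast hdL) (by exact_mod_cast hgL) hw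
  apply key
  rw [← hcn, ← hbn]
  have hac0 : na ≤ nc := by rw [hnc]; omega
  have hbc0 : nb ≤ nc := by rw [hnc]; omega
  exact ⟨by exact_mod_cast c48 h16 g1, by exact_mod_cast c48 h16' g2,
    by exact_mod_cast c48 h16'' g3, hac0, hbc0, _, _, _, hMW, hac.symm, hbc.symm⟩

end Pool.Agent.Work.MP_71a505_core
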