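import Pool.Agent.Work.MP_71a505_core.CLem
import Pool.Agent.Work.MP_71a505_core.CMask

/-!
Soundness of the modular test.
-/

namespace Pool.Agent.Work.MP_71a505_core

theorem beq_ff {a b : ℕ} : Nat.beq a b = false ↔ a ≠ b := by
  constructor
  · intro h hh
    rw [hh, Nat.beq_refl] at h
    cases h
  · intro h
    cases h2 : Nat.beq a b
    · rfl
    · exact absurd (Nat.eq_of_beq_eq_true h2) h

/-- the entry of the table of inverses -/
def jn (I q : ℕ) : ℕ := Nat.mod (Nat.shiftRight I (Nat.mul 9 q)) 512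

theorem primes_tabs : ∀ h ∈ tabs, h.1.Prime := by
  intro h hh
  have h1 : h.1 ∈ tabs.map Prod.fst := List.mem_map_of_mem hh
  have h2 : tabs.map Prod.fst = [23, 29, 41, 47, 53, 59, 71, 83, 89, 101, 107, 113, 131, 137, 149,
    167, 173, 179, 191, 197, 227, 233, 239, 251, 257, 263, 269, 281, 293, 311, 317, 347, 353,
    359] := rfl
  rw [h2] at h1
  generalize h.1 = p at h1
  simp only [List.mem_cons, List.not_mem_nil, or_false] at h1
  rcases h1 with rfl | rfl | rfl | rfl | rfl | rfl | rfl | rfl | rfl | rfl | rfl | rfl | rfl |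
    rfl | rfl | rfl | rfl | rfl | rfl | rfl | rfl | rfl | rfl | rfl | rfl | rfl | rfl | rfl |
    rfl | rfl | rfl | rfl | rfl | rfl <;> norm_num

theorem look_ex {P Q : ℕ} : ∀ l : List (ℕ × ℕ × ℕ), look P Q l = true →
    ∃ h ∈ l, Nat.land (Nat.shiftRight h.2.2 (P * jn h.2.1 (Q % h.1) % h.1)) 1 ≠ 0
  | [], h => by simp [look] at h
  | (p, I, N) :: l, h => by
    have e : look P Q ((p, I, N) :: l) = (Nat.rec (look P Q l) (fun _ _ => true)
      (Nat.land (Nat.shiftRight N (P * jn I (Q % p) % p)) 1) : Bool) := rfl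
    rw [e] at h
    by_cases h0 : Nat.land (Nat.shiftRight N (P * jn I (Q % p) % p)) 1 = 0
    · rw [h0] at h
      obtain ⟨x, hx, hx'⟩ := look_ex l h
      exact ⟨x, List.mem_cons_of_mem _ hx, hx'⟩
    · exact ⟨_, List.mem_cons_self, h0⟩

theorem tabOK_iff {p I N : ℕ} (h : tabOK p I N = true) :
    jn I 0 = 0 ∧ (∀ q, 0 < q → q < p → (q * jn I q) % p = 1) ∧
      (∀ e < p, (2 * e + 1) % p = 0 → (e * (e * e) * (e + 2)) % p ≠ 0) ∧
      (∀ e < p, (2 * e + 1) % p ≠ 0 → Nat.land (Nat.shiftRight N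
        (e * (e * e) * (e + 2) * jn I ((2 * e + 1) % p) % p)) 1 = 0) := by
  unfold tabOK at h
  rw [Bool.and_eq_true, Bool.and_eq_true, allLt_iff, allLt_iff] at h
  obtain ⟨h1, h2, h3⟩ := h
  refine ⟨Nat.eq_of_beq_eq_true h1, ?_, ?_, ?_⟩
  · intro q hq hqp
    obtain ⟨k, rfl⟩ : ∃ k, q = k + 1 := ⟨q - 1, by omega⟩
    exact Nat.eq_of_beq_eq_true (h2 k (by
      have : Nat.pred p = p - 1 := rfl
      omega))
  · intro e he h0
    have h4 := h3 e he
    have e1 : Nat.beq (Nat.mod (Nat.succ (Nat.mul 2 e)) p) 0 = true := by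
      have : Nat.mod (Nat.succ (Nat.mul 2 e)) p = 0 := h0
      rw [this]; rfl
    rw [e1] at h4
    have h5 : (!(Nat.beq (Nat.mod (Nat.mul (Nat.mul e (Nat.mul e e)) (Nat.add e 2)) p) 0)) = true :=
      h4
    rw [Bool.not_eq_true'] at h5
    exact beq_ff.1 h5
  · intro e he h0
    have h4 := h3 e he
    have e1 : Nat.beq (Nat.mod (Nat.succ (Nat.mul 2 e)) p) 0 = false := beq_ff.2 h0
    rw [e1] at h4
    exact Nat.eq_of_beq_eq_true h4

/-- the numbers `P`, `Q` do not come from an exceptional triple -/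
theorem tab_use {p I N : ℕ} (hp : p.Prime) (h : tabOK p I N = true) {P Q : ℕ}
    (hb : Nat.land (Nat.shiftRight N (P * jn I (Q % p) % p)) 1 ≠ 0)
    {M W U : ℤ} (h1 : M * W = U ^ 2) (h2 : M * (M + 2 * U) = P) (h3 : W * (W + 2 * U) = Q) :
    False := by
  have : Fact p.Prime := ⟨hp⟩
  obtain ⟨t0, t1, t2, t3⟩ := tabOK_iff h
  have hp1 : 1 < p := hp.one_lt
  rcases Nat.eq_zero_or_pos (Q % p) with hq | hq
  · have h4 := t3 0 hp.pos (by
      rw [Nat.mul_zero, Nat.zero_add, Nat.mod_eq_of_lt hp1]; norm_num)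
    simp only [Nat.zero_mul, Nat.zero_mod] at h4
    rw [hq, t0, Nat.mul_zero, Nat.zero_mod] at hb
    exact hb h4
  have hQ0 : (Q : ZMod p) ≠ 0 := by
    intro h0
    rw [ZMod.natCast_eq_zero_iff] at h0
    rw [Nat.mod_eq_zero_of_dvd h0] at hq
    exact lt_irrefl _ hq
  have c2 : (M : ZMod p) * (M + 2 * U) = P := by
    have := congrArg (Int.cast : ℤ → ZMod p) h2
    push_cast at this
    exact this
  have c3 : (W : ZMod p) * (W + 2 * U) = Q := by
    have := congrArg (Int.cast : ℤ → ZMod p) h3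
    push_cast at this
    exact this
  have hU : (M : ZMod p) * W = (U : ZMod p) ^ 2 := by exact_mod_cast congrArg (Int.cast) h1
  have hW : (W : ZMod p) ≠ 0 := by
    intro h0
    rw [h0, zero_mul] at c3
    exact hQ0 c3.symm
  obtain ⟨e, he⟩ : ∃ e : ZMod p, (U : ZMod p) = e * W := ⟨U / W, by field_simp⟩
  have hM : (M : ZMod p) = e ^ 2 * W := by
    apply mul_right_cancel₀ hW
    rw [hU, he]; ring
  rw [he] at c2 c3
  rw [hM] at c2
  have h4 : (Q : ZMod p) * (e * (e * e) * (e + 2)) = P * (2 * e + 1) := by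
    rw [← c2, ← c3]; ring
  have cv : ((e.val : ℕ) : ZMod p) = e := ZMod.natCast_zmod_val e
  have hev := ZMod.val_lt e
  by_cases hz : (2 * e.val + 1) % p = 0
  · apply t2 e.val hev hz
    have e1 : ((2 * e.val + 1 : ℕ) : ZMod p) = 0 :=
      (ZMod.natCast_eq_zero_iff _ _).2 (Nat.dvd_of_mod_eq_zero hz)
    push_cast at e1
    rw [cv] at e1
    rw [e1, mul_zero] at h4
    have h5 := (mul_eq_zero.1 h4).resolve_left hQ0
    apply Nat.mod_eq_zero_of_dvd
    rw [← ZMod.natCast_eq_zero_iff]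
    push_cast
    rw [cv]; exact h5
  · have h5 := t3 e.val hev hz
    have j1 := t1 ((2 * e.val + 1) % p) (Nat.pos_of_ne_zero hz) (Nat.mod_lt _ hp.pos)
    have j2 := t1 (Q % p) hq (Nat.mod_lt _ hp.pos)
    have k1 : (2 * e + 1 : ZMod p) * jn I ((2 * e.val + 1) % p) = 1 := by
      have h6 : (((2 * e.val + 1) % p * jn I ((2 * e.val + 1) % p) : ℕ) : ZMod p)
          = ((1 : ℕ) : ZMod p) := by
        rw [ZMod.natCast_eq_natCast_iff', j1, Nat.mod_eq_of_lt hp1]
      rw [Nat.cast_mul, ZMod.natCast_mod] at h6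
      push_cast at h6
      rw [cv] at h6
      exact h6
    have k2 : (Q : ZMod p) * jn I (Q % p) = 1 := by
      have h6 : ((Q % p * jn I (Q % p) : ℕ) : ZMod p) = ((1 : ℕ) : ZMod p) := by
        rw [ZMod.natCast_eq_natCast_iff', j2, Nat.mod_eq_of_lt hp1]
      rw [Nat.cast_mul, ZMod.natCast_mod] at h6
      push_cast at h6
      exact h6
    apply hb
    have e1 : P * jn I (Q % p) % p
        = e.val * (e.val * e.val) * (e.val + 2) * jn I ((2 * e.val + 1) % p) % p := by
      rw [← ZMod.natCast_eq_natCast_iff']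
      push_cast
      rw [cv]
      linear_combination ((jn I (Q % p) : ZMod p) * P) * (-k1)
        + ((jn I ((2 * e.val + 1) % p) : ZMod p) * (e * (e * e) * (e + 2))) * (k2)
        - ((jn I (Q % p) : ZMod p) * (jn I ((2 * e.val + 1) % p) : ZMod p)) * h4
    rw [e1]; exact h5

/-- the test on `P`, `Q` -/
theorem tstPQ_sound {P Q : ℕ} (h : tstPQ P Q = true)
    {M W U : ℤ} (h1 : M * W = U ^ 2) (h2 : M * (M + 2 * U) = P) (h3 : W * (W + 2 * U) = Q) :
    False := by
  unfold tstPQ at h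
  rw [force_eq, force_eq] at h
  obtain ⟨x, hx, ht⟩ := look_ex tabs h
  exact tab_use (primes_tabs x hx) (List.all_eq_true.1 tabs_ok x hx) ht h1 h2 h3

/-- There are integers `M, W, U` attached to `a, b, c`. -/
def Ex (a b c : ℕ) : Prop :=
  48 ∣ a * b ∧ 48 ∣ a * c ∧ 48 ∣ b * c ∧ a ≤ c ∧ b ≤ c ∧
    ∃ M W U : ℤ, M * W = U ^ 2 ∧ M * (M + 2 * U) = a * ((c : ℤ) - b) ∧
      W * (W + 2 * U) = b * ((c : ℤ) - a)

theorem beq48 {n : ℕ} (h : 48 ∣ n) : Nat.beq (Nat.mod n 48) 0 = true := by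
  have : Nat.mod n 48 = 0 := Nat.mod_eq_zero_of_dvd h
  rw [this]; rfl

theorem one_sound {a b c : ℕ} (h : one a b c = true) : ¬ Ex a b c := by
  rintro ⟨-, h2, -, h4, h5, M, W, U, e1, e2, e3⟩
  unfold one at h
  have k : Nat.beq (Nat.mod (Nat.mul a c) 48) 0 = true := beq48 h2
  rw [k] at h
  have h' : tstPQ (a * (c - b)) (b * (c - a)) = true := h
  refine tstPQ_sound h' e1 ?_ ?_
  · rw [e2]; push_cast [h5]; ring
  · rw [e3]; push_cast [h4]; ring

theorem two_sound {a d b c : ℕ} (h : two a d b c = true) : ¬ Ex a b c ∧ ¬ Ex d b c := by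
  unfold two at h
  rw [force_eq, force_eq] at h
  constructor
  · intro he
    have k1 : Nat.beq (Nat.mod (Nat.mul a b) 48) 0 = true := beq48 he.1
    have k3 : Nat.beq (Nat.mod (Nat.mul b c) 48) 0 = true := beq48 he.2.2.1
    rw [k1, k3] at h
    have h' : (Bool.rec false (Bool.rec true (one d b c) (Nat.beq (Nat.mod (Nat.mul d b) 48) 0))
          (one a b c) : Bool) = true := h
    rw [rec_and, Bool.and_eq_true] at h'
    exact one_sound h'.1 he
  · intro he
    have k1 : Nat.beq (Nat.mod (Nat.mul d b) 48) 0 = true := beq48 he.1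
    have k3 : Nat.beq (Nat.mod (Nat.mul b c) 48) 0 = true := beq48 he.2.2.1
    rw [k1, k3] at h
    cases k : Nat.beq (Nat.mod (Nat.mul a b) 48) 0
    · rw [k] at h
      exact one_sound h he
    · rw [k] at h
      have h' : (Bool.rec false (one d b c) (one a b c) : Bool) = true := h
      rw [rec_and, Bool.and_eq_true] at h'
      exact one_sound h'.2 he

/-- `b`, `c` for the roles `a, d, g` -/
def bb (a d g x y z : ℕ) : ℕ := a + d + g + 2 * (a * d * g + x * y * z)
def cc (a d g x y z : ℕ) : ℕ :=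
  a + bb a d g x y z + d + 2 * (a * bb a d g x y z * d
    + (a * z + x * y) * x * (d * y + x * z))

/-- the roles `a, d, g` are impossible -/
def No (a d g x y z : ℕ) : Prop := ¬ Ex a (bb a d g x y z) (cc a d g x y z)

/-- all six roles are impossible -/
structure NodeNo (A B C z y x : ℕ) : Prop where
  n1 : No A B C z y x
  n2 : No B A C z x y
  n3 : No A C B y z x
  n4 : No C A B y x z
  n5 : No B C A x z y
  n6 : No C B A x y z

theorem node_sound {A B C z y x : ℕ} (h : node A B C (dp A B C x y z) z y x (z * y + A * x)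
    (z * x + B * y) (x * y + C * z) = true) : NodeNo A B C z y x := by
  unfold node at h
  rw [rec_and, rec_and, Bool.and_eq_true, Bool.and_eq_true] at h
  obtain ⟨h3, h2, h1⟩ := h
  obtain ⟨a5, a6⟩ := two_sound h3
  obtain ⟨a3, a4⟩ := two_sound h2
  obtain ⟨a1, a2⟩ := two_sound h1
  have ec : ∀ a d b r s t, dp a d b r s t = a + d + b + 2 * (a * d * b + r * s * t) :=
    fun _ _ _ _ _ _ => rfl
  have eb := ec A B C x y z
  generalize dp A B C x y z = D at *
  refine ⟨?_, ?_, ?_, ?_, ?_, ?_⟩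
  · have e1 : bb A B C z y x = D := by rw [eb, bb]; ring
    have e2 : cc A B C z y x = dp A B D z (z * y + A * x) (z * x + B * y) := by
      rw [cc, e1, ec]; ring
    rw [No, e1, e2]; exact a1
  · have e1 : bb B A C z x y = D := by rw [eb, bb]; ring
    have e2 : cc B A C z x y = dp A B D z (z * y + A * x) (z * x + B * y) := by
      rw [cc, e1, ec]; ring
    rw [No, e1, e2]; exact a2
  · have e1 : bb A C B y z x = D := by rw [eb, bb]; ring
    have e2 : cc A C B y z x = dp A C D y (z * y + A * x) (x * y + C * z) := by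
      rw [cc, e1, ec]; ring
    rw [No, e1, e2]; exact a3
  · have e1 : bb C A B y x z = D := by rw [eb, bb]; ring
    have e2 : cc C A B y x z = dp A C D y (z * y + A * x) (x * y + C * z) := by
      rw [cc, e1, ec]; ring
    rw [No, e1, e2]; exact a4
  · have e1 : bb B C A x z y = D := by rw [eb, bb]; ring
    have e2 : cc B C A x z y = dp B C D x (z * x + B * y) (x * y + C * z) := by
      rw [cc, e1, ec]; ring
    rw [No, e1, e2]; exact a5
  · have e1 : bb C B A x y z = D := by rw [eb, bb]; ring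
    have e2 : cc C B A x y z = dp B C D x (z * x + B * y) (x * y + C * z) := by
      rw [cc, e1, ec]; ring
    rw [No, e1, e2]; exact a6

end Pool.Agent.Work.MP_71a505_core
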