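import Pool.Agent.Work.MP_71a505_core.Reg0
import Pool.Agent.Work.MP_71a505_fin.Region

/-!
The constraints on an exceptional triple as linear inequalities in
`ξ = 12 log₂ (a d)`, `η = 12 log₂ (a g)`, `ζ = 4 log₂ (d g)`.
-/

namespace Pool.Agent.Work.MP_71a505_core

open Pool.Agent.Work.MP_71a505_nt Pool.Agent.Work.MP_71a505_up Pool.Agent.Work.MP_71a505_fin

theorem mono_log {a d g : ℝ} (ha : 0 < a) (hd : 0 < d) (hg : 0 < g) (n1 n2 n3 : ℕ) :
    Real.logb 2 (a ^ n1 * d ^ n2 * g ^ n3)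
      = n1 * Real.logb 2 a + n2 * Real.logb 2 d + n3 * Real.logb 2 g := by
  rw [Real.logb_mul (by positivity) (by positivity), Real.logb_mul (by positivity) (by positivity),
    Real.logb_pow, Real.logb_pow, Real.logb_pow]

/-- a monomial inequality in logarithmic form -/
theorem ineq_log {a d g : ℝ} (ha : 0 < a) (hd : 0 < d) (hg : 0 < g) {n1 n2 n3 m1 m2 m3 : ℕ}
    (S k p q : ℕ) (hp : 0 < p) (hq : 0 < q) (hk : Nat.ble (p ^ S) (2 ^ k * q ^ S) = true)
    (h : q * (a ^ n1 * d ^ n2 * g ^ n3) ≤ p * (a ^ m1 * d ^ m2 * g ^ m3)) :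
    S * (n1 * Real.logb 2 a + n2 * Real.logb 2 d + n3 * Real.logb 2 g)
      ≤ k + S * (m1 * Real.logb 2 a + m2 * Real.logb 2 d + m3 * Real.logb 2 g) := by
  have hp' : (0 : ℝ) < p := by exact_mod_cast hp
  have hq' : (0 : ℝ) < q := by exact_mod_cast hq
  have h1 := Real.logb_le_logb_of_le (b := 2) (by norm_num) (by positivity) h
  rw [Real.logb_mul (by positivity) (by positivity), Real.logb_mul (y := a ^ m1 * d ^ m2 * g ^ m3)
    (by positivity) (by positivity), mono_log ha hd hg, mono_log ha hd hg] at h1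
  have hk' : (p : ℝ) ^ S ≤ 2 ^ k * q ^ S := by exact_mod_cast Nat.le_of_ble_eq_true hk
  have h2 := Real.logb_le_logb_of_le (b := 2) (by norm_num) (by positivity) hk'
  rw [Real.logb_mul (by positivity) (by positivity), Real.logb_pow, Real.logb_pow, Real.logb_pow,
    Real.logb_self_eq_one (by norm_num), mul_one] at h2
  have h3 := mul_le_mul_of_nonneg_left h1 (Nat.cast_nonneg (α := ℝ) S)
  linarith

/-- upper bound for a larger regular extension -/
theorem ext_le {u v w r s t : ℝ} (hu : 0 < u) (hv : 0 < v) (hw : 0 < w) (h1 : u * v + 1 = r ^ 2) (h2 : u * w + 1 = s ^ 2) (h3 : v * w + 1 = t ^ 2)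
    (k1 : 10 ^ 6 ≤ u * v) (k2 : 10 ^ 6 ≤ u * w) (k3 : 10 ^ 6 ≤ v * w) :
    10000 * (u + v + w + 2 * (u * v * w) + 2 * (r * s * t)) ≤ 40001 * (u * v * w) := by
  have hP : 0 < u * v * w := by positivity
  have e1 : (r * s * t) ^ 2 ≤ (1000002 / 1000000 * (u * v * w)) ^ 2 := by
    have e : (r * s * t) ^ 2 = (u * v + 1) * (u * w + 1) * (v * w + 1) := by
      rw [h1, h2, h3]; ring
    rw [e]
    have a1 : u * v + 1 ≤ 1000001 / 1000000 * (u * v) := by linarith
    have a2 : u * w + 1 ≤ 1000001 / 1000000 * (u * w) := by linarith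
    have a3 : v * w + 1 ≤ 1000001 / 1000000 * (v * w) := by linarith
    calc (u * v + 1) * (u * w + 1) * (v * w + 1)
        ≤ (1000001 / 1000000 * (u * v)) * (1000001 / 1000000 * (u * w))
          * (1000001 / 1000000 * (v * w)) := by gcongr
      _ = (1000001 / 1000000) ^ 3 * (u * v * w) ^ 2 := by ring
      _ ≤ (1000002 / 1000000) ^ 2 * (u * v * w) ^ 2 := by
          apply mul_le_mul_of_nonneg_right _ (by positivity)
          norm_num
      _ = _ := by ring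
  have e2 : r * s * t ≤ 1000002 / 1000000 * (u * v * w) := le_of_sq_le_sq e1 (by positivity)
  have b1 : 10 ^ 6 * u ≤ u * v * w := by
    have := mul_le_mul_of_nonneg_left k3 hu.le
    linarith
  have b2 : 10 ^ 6 * v ≤ u * v * w := by
    have := mul_le_mul_of_nonneg_left k2 hv.le
    linarith
  have b3 : 10 ^ 6 * w ≤ u * v * w := by
    have := mul_le_mul_of_nonneg_left k1 hw.le
    linarith
  linarith

/-- The monomial inequalities. -/
theorem mono_ineqs {a b c d g : ℝ} (ha0 : 0 < a) (hb0 : 0 < b) (hc0 : 0 < c) (hd0 : 0 < d)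
    (hg0 : 0 < g) (hb4 : 4 * a * d * g < b) (hc4 : 4 * a * b * d < c)
    (hb5 : 10000 * b ≤ 40001 * (a * d * g)) (hc5 : 10000 * c ≤ 40001 * (a * b * d))
    (b7 : b < 10 ^ 10 * a ^ 7) (c4 : c < 10 ^ 11 * a ^ 4 * b) (a13 : a ^ 13 < (10 ^ 4 * b) ^ 10)
    (hf : b ^ 5 < 2 * (a ^ 8 * c ^ 3))
    (hE : c ^ 3 ≤ 1000000 * (a * b ^ 5) ∨ b ≤ 1000000 * a ^ 4)
    (h36 : c < 1000000 * (a ^ 2 * b) ∨ b ^ 7 < 1000000000000 * (a ^ 10 * c ^ 3)) :
    1000 * g ^ 2 ≤ 8001 * (a ^ 9 * d) ∧ 4 * (d * g) ≤ 10 ^ 10 * a ^ 6 ∧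
      4 * d ≤ 10 ^ 11 * a ^ 3 ∧
      (d ≤ 250020 * g ^ 2 ∨ d * g ≤ 250000 * a ^ 3) ∧
      (d ≤ 250000 * a ∨ d * g ^ 4 ≤ 250030000000 * a ^ 9) ∧
      a ^ 3 ≤ 40001 ^ 10 * (d * g) ^ 10 := by
  have hP : 0 < a * d * g := by positivity
  have hc3 : (10000 * c) ^ 3 ≤ (40001 * (a * b * d)) ^ 3 :=
    pow_le_pow_left₀ (by positivity) hc5 3
  have hb2 : (4 * a * d * g) ^ 2 ≤ b ^ 2 := pow_le_pow_left₀ (by positivity) hb4.le 2
  have hc3' : (4 * a * b * d) ^ 3 ≤ c ^ 3 := pow_le_pow_left₀ (by positivity) hc4.le 3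
  have hb2' : (10000 * b) ^ 2 ≤ (40001 * (a * d * g)) ^ 2 :=
    pow_le_pow_left₀ (by positivity) hb5 2
  have hb4' : (4 * a * d * g) ^ 4 ≤ b ^ 4 := pow_le_pow_left₀ (by positivity) hb4.le 4
  refine ⟨?_, ?_, ?_, ?_, ?_, ?_⟩
  · -- `g ^ 2`
    have h1 : b ^ 3 * (10 ^ 12 * b ^ 2) ≤ b ^ 3 * (2 * 40001 ^ 3 * (a ^ 11 * d ^ 3)) := by
      calc b ^ 3 * (10 ^ 12 * b ^ 2) = 10 ^ 12 * b ^ 5 := by ring
        _ ≤ 10 ^ 12 * (2 * (a ^ 8 * c ^ 3)) := by linarith
        _ = 2 * a ^ 8 * (10000 * c) ^ 3 := by ring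
        _ ≤ 2 * a ^ 8 * (40001 * (a * b * d)) ^ 3 :=
            mul_le_mul_of_nonneg_left hc3 (by positivity)
        _ = _ := by ring
    have h2 := le_of_mul_le_mul_left h1 (by positivity)
    have h3 : (a ^ 2 * d ^ 2) * (16 * 10 ^ 12 * g ^ 2)
        ≤ (a ^ 2 * d ^ 2) * (2 * 40001 ^ 3 * (a ^ 9 * d)) := by
      calc (a ^ 2 * d ^ 2) * (16 * 10 ^ 12 * g ^ 2) = 10 ^ 12 * (4 * a * d * g) ^ 2 := by ring
        _ ≤ 10 ^ 12 * b ^ 2 := by linarith
        _ ≤ 2 * 40001 ^ 3 * (a ^ 11 * d ^ 3) := h2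
        _ = _ := by ring
    have h4 := le_of_mul_le_mul_left h3 (by positivity)
    have h5 : 0 < a ^ 9 * d := by positivity
    norm_num at h4
    linarith
  · have h1 : a * (4 * (d * g)) ≤ a * (10 ^ 10 * a ^ 6) := by
      calc a * (4 * (d * g)) = 4 * a * d * g := by ring
        _ ≤ b := hb4.le
        _ ≤ 10 ^ 10 * a ^ 7 := b7.le
        _ = _ := by ring
    exact le_of_mul_le_mul_left h1 ha0
  · have h1 : (a * b) * (4 * d) ≤ (a * b) * (10 ^ 11 * a ^ 3) := by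
      calc (a * b) * (4 * d) = 4 * a * b * d := by ring
        _ ≤ c := hc4.le
        _ ≤ 10 ^ 11 * a ^ 4 * b := c4.le
        _ = _ := by ring
    exact le_of_mul_le_mul_left h1 (by positivity)
  · rcases hE with h | h
    · left
      have h1 : (a * b ^ 3) * (64 * (a ^ 2 * d ^ 3)) ≤ (a * b ^ 3) * (1000000 * b ^ 2) := by
        calc (a * b ^ 3) * (64 * (a ^ 2 * d ^ 3)) = (4 * a * b * d) ^ 3 := by ring
          _ ≤ c ^ 3 := hc3'
          _ ≤ 1000000 * (a * b ^ 5) := h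
          _ = _ := by ring
      have h2 := le_of_mul_le_mul_left h1 (by positivity)
      have h3 : (a ^ 2 * d ^ 2) * (64 * d) ≤ (a ^ 2 * d ^ 2) * (40001 ^ 2 / 100 * g ^ 2) := by
        calc (a ^ 2 * d ^ 2) * (64 * d) = 64 * (a ^ 2 * d ^ 3) := by ring
          _ ≤ 1000000 * b ^ 2 := h2
          _ = 1 / 100 * (10000 * b) ^ 2 := by ring
          _ ≤ 1 / 100 * (40001 * (a * d * g)) ^ 2 := by linarith
          _ = _ := by ring
      have h4 := le_of_mul_le_mul_left h3 (by positivity)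
      have h5 : 0 < g ^ 2 := by positivity
      norm_num at h4
      linarith
    · right
      have h1 : a * (4 * (d * g)) ≤ a * (1000000 * a ^ 3) := by
        calc a * (4 * (d * g)) = 4 * a * d * g := by ring
          _ ≤ b := hb4.le
          _ ≤ 1000000 * a ^ 4 := h
          _ = _ := by ring
      have h2 := le_of_mul_le_mul_left h1 ha0
      linarith
  · rcases h36 with h | h
    · left
      have h1 : (a * b) * (4 * d) ≤ (a * b) * (1000000 * a) := by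
        calc (a * b) * (4 * d) = 4 * a * b * d := by ring
          _ ≤ c := hc4.le
          _ ≤ 1000000 * (a ^ 2 * b) := h.le
          _ = _ := by ring
      have h2 := le_of_mul_le_mul_left h1 (by positivity)
      linarith
    · right
      have h1 : b ^ 3 * b ^ 4 ≤ b ^ 3 * (40001 ^ 3 * (a ^ 13 * d ^ 3)) := by
        calc b ^ 3 * b ^ 4 = b ^ 7 := by ring
          _ ≤ 1000000000000 * (a ^ 10 * c ^ 3) := h.le
          _ = a ^ 10 * (10000 * c) ^ 3 := by ring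
          _ ≤ a ^ 10 * (40001 * (a * b * d)) ^ 3 := mul_le_mul_of_nonneg_left hc3 (by positivity)
          _ = _ := by ring
      have h2 := le_of_mul_le_mul_left h1 (by positivity)
      have h3 : (a ^ 4 * d ^ 3) * (256 * (d * g ^ 4)) ≤ (a ^ 4 * d ^ 3) * (40001 ^ 3 * a ^ 9) := by
        calc (a ^ 4 * d ^ 3) * (256 * (d * g ^ 4)) = (4 * a * d * g) ^ 4 := by ring
          _ ≤ b ^ 4 := hb4'
          _ ≤ 40001 ^ 3 * (a ^ 13 * d ^ 3) := h2
          _ = _ := by ring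
      have h4 := le_of_mul_le_mul_left h3 (by positivity)
      have h5 : 0 < a ^ 9 := by positivity
      norm_num at h4
      linarith
  · have h1 : (10 ^ 4 * b) ^ 10 ≤ (40001 * (a * d * g)) ^ 10 :=
      pow_le_pow_left₀ (by positivity) (by linarith) 10
    have h2 : a ^ 10 * a ^ 3 ≤ a ^ 10 * (40001 ^ 10 * (d * g) ^ 10) := by
      calc a ^ 10 * a ^ 3 = a ^ 13 := by ring
        _ ≤ (10 ^ 4 * b) ^ 10 := a13.le
        _ ≤ (40001 * (a * d * g)) ^ 10 := h1
        _ = a ^ 10 * (40001 ^ 10 * (d * g) ^ 10) := by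
            rw [mul_pow, mul_assoc a d g, mul_pow a (d * g)]; ring
    exact le_of_mul_le_mul_left h2 (by positivity)

/-- the list of the constraints -/
def cons0 : List Dj := [
  [[⟨⟨0, 10, 0, 0⟩, ⟨2391, 0, 0, 0⟩⟩]],
  [[⟨⟨0, 0, 10, 0⟩, ⟨2391, 0, 0, 0⟩⟩]],
  [[⟨⟨0, 0, 0, 10⟩, ⟨797, 0, 0, 0⟩⟩]],
  [[⟨⟨722, 120, 60, 0⟩, ⟨0, 0, 0, 300⟩⟩]],
  [[⟨⟨7494, 60, 60, 0⟩, ⟨0, 0, 0, 240⟩⟩]],
  [[⟨⟨8291, 20, 40, 0⟩, ⟨0, 0, 0, 120⟩⟩]],
  [[⟨⟨4305, 0, 30, 30⟩, ⟨0, 30, 0, 0⟩⟩], [⟨⟨4305, 30, 30, 0⟩, ⟨0, 0, 0, 150⟩⟩]],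
  [[⟨⟨4305, 0, 20, 0⟩, ⟨0, 0, 0, 60⟩⟩], [⟨⟨9089, 120, 60, 0⟩, ⟨0, 0, 0, 420⟩⟩]],
  [[⟨⟨3671, 0, 0, 69⟩, ⟨0, 3, 3, 0⟩⟩]],
  [[⟨⟨1, 1, 0, 3⟩, ⟨0, 0, 1, 0⟩⟩]],
  [[⟨⟨1, 0, 1, 3⟩, ⟨0, 1, 0, 0⟩⟩]],
  [[⟨⟨0, 1, 1, 0⟩, ⟨23, 0, 0, 3⟩⟩]]]

theorem dok_one {ξ η ζ : ℝ} {D : Dj} {al : List Lf} (h1 : al ∈ D) {f : Lf} (h2 : al = [f])
    (h : 0 < f.val ξ η ζ) : DOK ξ η ζ D :=
  ⟨al, h1, fun f' hf' => by
    rw [h2, List.mem_singleton] at hf'
    rw [hf']; exact h⟩

theorem dok_all {a b c r s t : ℤ} {W e h α β γ δ d g x y z xb yb xc ξ η ζ : ℝ}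
    (F : Full a b c r s t W e h α β γ δ d g x y z xb yb xc)
    (hξ : ξ = 12 * Real.logb 2 (a * d)) (hη : η = 12 * Real.logb 2 (a * g))
    (hζ : ζ = 4 * Real.logb 2 (d * g)) : ∀ D ∈ cons0, DOK ξ η ζ D := by
  obtain ⟨kad, kag, kdg, -, -, -⟩ := F.prods
  have ha := F.Q.a1
  have hd := F.Q.d1
  have hg := F.Q.g1
  have ha0 : (0 : ℝ) < a := by linarith
  have hd0 : 0 < d := by linarith
  have hg0 : 0 < g := by linarith
  have hb4 := (b_le F.Q).1
  have hc4 := F.X.dc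
  have hP0 : 0 < (a : ℝ) * d * g := by positivity
  have hb0 : (0 : ℝ) < b := lt_trans (by positivity) hb4
  -- upper bounds
  have hb5 : 10000 * (b : ℝ) ≤ 40001 * (a * d * g) := by
    have := ext_le ha0 hd0 hg0 F.Q.x2 F.Q.y2 F.Q.z2 kad kag kdg
    rw [F.Q.eb]
    linarith
  have hab : 10 ^ 6 ≤ (a : ℝ) * b := by
    have h1 : (a : ℝ) * (4 * a * d * g) ≤ a * b := mul_le_mul_of_nonneg_left hb4.le ha0.le
    have h2 : (a : ℝ) * (4 * a * d * g) = 4 * ((a * d) * (a * g)) := by ring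
    have h3 : (10 : ℝ) ^ 6 * 10 ^ 6 ≤ (a * d) * (a * g) :=
      mul_le_mul kad kag (by positivity) (by positivity)
    rw [h2] at h1
    norm_num at h3 ⊢
    linarith
  have hdb : 10 ^ 6 ≤ d * (b : ℝ) := by
    have h1 : d * (4 * a * d * g) ≤ d * (b : ℝ) := mul_le_mul_of_nonneg_left hb4.le hd0.le
    have h2 : d * (4 * a * d * g) = 4 * ((a * d) * (d * g)) := by ring
    have h3 : (10 : ℝ) ^ 6 * 10 ^ 6 ≤ (a * d) * (d * g) :=
      mul_le_mul kad kdg (by positivity) (by positivity)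
    rw [h2] at h1
    norm_num at h3 ⊢
    linarith
  have hc5 : 10000 * (c : ℝ) ≤ 40001 * (a * b * d) := by
    have := ext_le ha0 hb0 hd0 F.R.r2 F.Q.x2 F.Q.xb2 hab kad
      (by rw [mul_comm]; exact hdb)
    rw [F.Q.ec]
    linarith
  have hc0 : (0 : ℝ) < c := lt_trans (by positivity) hc4
  -- logarithms
  set A := Real.logb 2 (a : ℝ) with hA
  set B := Real.logb 2 d with hB
  set G := Real.logb 2 g with hG
  have e1 : ξ = 12 * (A + B) := by rw [hξ, Real.logb_mul ha0.ne' hd0.ne']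
  have e2 : η = 12 * (A + G) := by rw [hη, Real.logb_mul ha0.ne' hg0.ne']
  have e3 : ζ = 4 * (B + G) := by rw [hζ, Real.logb_mul hd0.ne' hg0.ne']
  have big : ∀ {v : ℝ}, 10 ^ 6 ≤ v → 23917 ≤ 1200 * Real.logb 2 v := by
    intro v hv
    have h0 : Nat.ble ((2 : ℕ) ^ 23917) ((10 ^ 6) ^ 1200) = true := by decide +kernel
    have h0' : (2 : ℝ) ^ 23917 ≤ (10 ^ 6) ^ 1200 := by exact_mod_cast Nat.le_of_ble_eq_true h0
    have h1 : (2 : ℝ) ^ 23917 ≤ v ^ 1200 := h0'.trans (pow_le_pow_left₀ (by norm_num) hv 1200)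
    have h2 := Real.logb_le_logb_of_le (b := 2) (by norm_num) (by positivity) h1
    rw [Real.logb_pow, Real.logb_pow, Real.logb_self_eq_one (by norm_num), mul_one] at h2
    push_cast at h2
    linarith
  have ha2 : (2 : ℝ) ≤ a := by
    rcases lt_or_ge (a : ℝ) 2 with h | h
    · exfalso
      have h1 : a < 2 := by exact_mod_cast h
      have h2 : 1 ≤ a := by exact_mod_cast ha
      have h3 : a = 1 := by omega
      have h4 := F.h5 (by rw [h3]; norm_num)
      have h5 : (a : ℝ) = 1 := by rw [h3]; norm_num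
      rw [h5, one_mul] at kad
      have h6 : (10 : ℝ) ^ 6 * 10 ^ 6 ≤ d * g := by
        apply mul_le_mul kad _ (by positivity) (by positivity)
        rw [h5, one_mul] at kag; exact kag
      rw [h5] at hb4
      norm_num at h6
      linarith
    · exact h
  obtain ⟨m4, m5, m6, m7, m8, m9⟩ := mono_ineqs ha0 hb0 hc0 hd0 hg0 hb4 hc4 hb5 hc5 F.b7 F.c4 F.a13
    F.hf F.hE (F.h36 ha2)
  have l1 := big kad
  have l2 := big kag
  have l3 := big kdg
  rw [Real.logb_mul ha0.ne' hd0.ne'] at l1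
  rw [Real.logb_mul ha0.ne' hg0.ne'] at l2
  rw [Real.logb_mul hd0.ne' hg0.ne'] at l3
  have l4 := ineq_log ha0 hd0 hg0 (n1 := 0) (n2 := 0) (n3 := 2) (m1 := 9) (m2 := 1) (m3 := 0)
    240 721 8001 1000 (by norm_num) (by norm_num) (by decide +kernel)
    (by push_cast; linarith)
  have l5 := ineq_log ha0 hd0 hg0 (n1 := 0) (n2 := 1) (n3 := 1) (m1 := 6) (m2 := 0) (m3 := 0)
    240 7493 (10 ^ 10) 4 (by norm_num) (by norm_num) (by decide +kernel)
    (by push_cast; linarith)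
  have l6 := ineq_log ha0 hd0 hg0 (n1 := 0) (n2 := 1) (n3 := 0) (m1 := 3) (m2 := 0) (m3 := 0)
    240 8290 (10 ^ 11) 4 (by norm_num) (by norm_num) (by decide +kernel)
    (by push_cast; linarith)
  have l7 := m7.imp
    (fun h => ineq_log ha0 hd0 hg0 (n1 := 0) (n2 := 1) (n3 := 0) (m1 := 0) (m2 := 0) (m3 := 2)
      240 4304 250020 1 (by norm_num) (by norm_num) (by decide +kernel)
      (by push_cast; linarith))
    (fun h => ineq_log ha0 hd0 hg0 (n1 := 0) (n2 := 1) (n3 := 1) (m1 := 3) (m2 := 0) (m3 := 0)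
      240 4304 250000 1 (by norm_num) (by norm_num) (by decide +kernel)
      (by push_cast; linarith))
  have l8 := m8.imp
    (fun h => ineq_log ha0 hd0 hg0 (n1 := 0) (n2 := 1) (n3 := 0) (m1 := 1) (m2 := 0) (m3 := 0)
      240 4304 250000 1 (by norm_num) (by norm_num) (by decide +kernel)
      (by push_cast; linarith))
    (fun h => ineq_log ha0 hd0 hg0 (n1 := 0) (n2 := 1) (n3 := 4) (m1 := 9) (m2 := 0) (m3 := 0)
      240 9088 250030000000 1 (by norm_num) (by norm_num) (by decide +kernel)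
      (by push_cast; linarith))
  have l9 := ineq_log ha0 hd0 hg0 (n1 := 3) (n2 := 0) (n3 := 0) (m1 := 0) (m2 := 10) (m3 := 10)
    24 3670 (40001 ^ 10) 1 (by norm_num) (by norm_num) (by decide +kernel)
    (by
      have : (d * g) ^ 10 = (a : ℝ) ^ 0 * d ^ 10 * g ^ 10 := by ring
      rw [← this]; push_cast; linarith)
  have l10 : 1 ≤ A := by
    rw [hA, ← Real.logb_self_eq_one (show (1 : ℝ) < 2 by norm_num)]
    exact Real.logb_le_logb_of_le (by norm_num) (by norm_num) ha2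
  have l11 : 0 ≤ B := Real.logb_nonneg (by norm_num) hd
  have l12 : 0 ≤ G := Real.logb_nonneg (by norm_num) hg
  rw [← hA, ← hB, ← hG] at l4 l5 l6 l9
  rw [← hA, ← hB, ← hG] at l7 l8
  rw [← hA, ← hB] at l1
  rw [← hA, ← hG] at l2
  rw [← hB, ← hG] at l3
  push_cast at l4 l5 l6 l7 l8 l9
  intro D hD
  simp only [cons0, List.mem_cons, List.not_mem_nil, or_false] at hD
  rcases hD with rfl | rfl | rfl | rfl | rfl | rfl | rfl | rfl | rfl | rfl | rfl | rfl
  · exact dok_one List.mem_cons_self rfl (by simp only [Lf.val]; push_cast; linarith)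
  · exact dok_one List.mem_cons_self rfl (by simp only [Lf.val]; push_cast; linarith)
  · exact dok_one List.mem_cons_self rfl (by simp only [Lf.val]; push_cast; linarith)
  · exact dok_one List.mem_cons_self rfl (by simp only [Lf.val]; push_cast; linarith)
  · exact dok_one List.mem_cons_self rfl (by simp only [Lf.val]; push_cast; linarith)
  · exact dok_one List.mem_cons_self rfl (by simp only [Lf.val]; push_cast; linarith)
  · rcases l7 with l7 | l7
    · exact dok_one List.mem_cons_self rfl (by simp only [Lf.val]; push_cast; linarith)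
    · exact dok_one (List.mem_cons_of_mem _ List.mem_cons_self) rfl
        (by simp only [Lf.val]; push_cast; linarith)
  · rcases l8 with l8 | l8
    · exact dok_one List.mem_cons_self rfl (by simp only [Lf.val]; push_cast; linarith)
    · exact dok_one (List.mem_cons_of_mem _ List.mem_cons_self) rfl
        (by simp only [Lf.val]; push_cast; linarith)
  · exact dok_one List.mem_cons_self rfl (by simp only [Lf.val]; push_cast; linarith)
  · exact dok_one List.mem_cons_self rfl (by simp only [Lf.val]; push_cast; linarith)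
  · exact dok_one List.mem_cons_self rfl (by simp only [Lf.val]; push_cast; linarith)
  · exact dok_one List.mem_cons_self rfl (by simp only [Lf.val]; push_cast; linarith)

end Pool.Agent.Work.MP_71a505_core
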