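import Pool.Agent.Work.MP_71a505_fin.IntF

/-!
Integrality of the squares of the half functions.
-/

namespace Pool.Agent.Work.MP_71a505_fin

open Pool.Agent.Work.MP_71a505_up

theorem int_rv1 {a d g : ℝ} (ha : IsI a) (hd : IsI d) (hg : IsI g) (r : List Raw) :
    IsI (rv1 a d g r) := by
  induction r with
  | nil => exact ⟨0, by simp [rv1]⟩
  | cons t r ih =>
    exact ((IsI.int t.c).mul (((ha.pow _).mul (hd.pow _)).mul (hg.pow _))).add ih

/-- the classes use `α, β, γ` only -/
def chkHalf : List Hi → Bool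
  | [] => true
  | c :: cs => Nat.ble c.v 2 && chkHalf cs

theorem half_form {E : Env} (h : EI E) (cs : List Hi) (rs : List (List Raw))
    (hk : chkHalf cs = true) : ∃ p q r : ℝ, IsI p ∧ IsI q ∧ IsI r ∧
      E.gv cs rs = E.α * p + E.β * q + E.γ * r := by
  unfold Env.gv
  induction cs generalizing rs with
  | nil => exact ⟨0, 0, 0, ⟨0, by simp⟩, ⟨0, by simp⟩, ⟨0, by simp⟩, by simp [rv]⟩
  | cons c cs ih =>
    cases rs with
    | nil => exact ⟨0, 0, 0, ⟨0, by simp⟩, ⟨0, by simp⟩, ⟨0, by simp⟩, by simp [rv]⟩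
    | cons r rs =>
      rw [chkHalf, Bool.and_eq_true] at hk
      obtain ⟨p, q, w, hp, hq, hw, he⟩ := ih rs hk.2
      have hv := Nat.le_of_ble_eq_true hk.1
      have hs := (h.ss c.s).mul (int_rv1 h.a h.d h.g r)
      obtain ⟨v, s⟩ := c
      simp only [List.map_cons, rv, Env.hv] at he hs hv ⊢
      rw [he]
      match v, hv with
      | 0, _ => exact ⟨_, q, w, hs.add hp, hq, hw, by simp only [Env.hh]; ring⟩
      | 1, _ => exact ⟨p, _, w, hp, hs.add hq, hw, by simp only [Env.hh]; ring⟩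
      | 2, _ => exact ⟨p, q, _, hp, hq, hs.add hw, by simp only [Env.hh]; ring⟩

/-- the square of a half function in `α, β, γ` is divisible by 24 -/
theorem int_half {E : Env} (h : EI E) (cs : List Hi) (rs : List (List Raw))
    (hk : chkHalf cs = true) : IsI (E.gv cs rs ^ 2 / 24) := by
  obtain ⟨p, q, r, hp, hq, hr, he⟩ := half_form h cs rs hk
  rw [he]
  have two : IsI (2 : ℝ) := ⟨2, by norm_num⟩
  have h1 := ((((hp.pow 2).mul h.v.iA).add ((hq.pow 2).mul h.v.iB)).add
    ((hr.pow 2).mul h.v.iC)).add (((two.mul (hp.mul hq)).mul h.v.iAB).add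
    (((two.mul (hp.mul hr)).mul h.v.iAC).add ((two.mul (hq.mul hr)).mul h.v.iBC)))
  refine isI_congr h1 ?_
  ring

end Pool.Agent.Work.MP_71a505_fin
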